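import Mathlib

set_option autoImplicit false

open scoped InnerProductSpace NNReal ComplexOrder
open ContinuousLinearMap

namespace Pool.Agent.Results.MP_20dafb_an.HyponormalRoots

universe u v
variable {H : Type u} [NormedAddCommGroup H] [InnerProductSpace ℂ H] [CompleteSpace H]
variable {K : Type v} [NormedAddCommGroup K] [InnerProductSpace ℂ K] [CompleteSpace K]
variable {ι : Type} [Fintype ι]

/-- A tuple `T = (T_i)` of bounded operators is jointly hyponormal if the operator matrix whose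
`(i, j)` entry is `[T_j^*, T_i] = T_j^* T_i - T_i T_j^*` is positive: for all vectors `x_i`, the
number `∑_{i,j} ⟨[T_j^*, T_i] x_j, x_i⟩` is real and nonnegative. (`star` is the adjoint.) -/
def JointlyHyponormal (T : ι → H →L[ℂ] H) : Prop :=
  ∀ x : ι → H, 0 ≤ ∑ i, ∑ j, ⟪(star (T j) * T i - T i * star (T j)) (x j), x i⟫_ℂ

/-- A tuple `T = (T_i)` is spherically quasinormal if every `T_i` commutes with
`∑_j T_j^* T_j`. -/
def SphericallyQuasinormal (T : ι → H →L[ℂ] H) : Prop :=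
  ∀ i, Commute (T i) (∑ j, star (T j) * T j)

/-- The power `T^n` of a `d`-tuple `T`: the `d ^ n`-tuple of all words
`T_{w 0} T_{w 1} ⋯ T_{w (n-1)}`, indexed by the sequences `w ∈ {1, …, d}^n`. -/
noncomputable def tuplePow {d : ℕ} (T : Fin d → H →L[ℂ] H) (n : ℕ) :
    (Fin n → Fin d) → H →L[ℂ] H :=
  fun w => (List.ofFn fun k => T (w k)).prod

/-- `Θ_T(X) = ∑ T_i^* X T_i` -/
noncomputable def Θ (T : ι → H →L[ℂ] H) (X : H →L[ℂ] H) : H →L[ℂ] H := ∑ i, star (T i) * X * T i

section algebraic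

variable {A : Type*} [CStarAlgebra A]

lemma cancel_pow {a X : A} (ha : IsSelfAdjoint a) (k : ℕ) (h : a ^ (k + 1) * X = 0) : a * X = 0 := by
  induction k with
  | zero => simpa using h
  | succ k ih =>
    apply ih
    rw [← CStarRing.star_mul_self_eq_zero_iff, star_mul, star_pow, ha.star_eq, mul_assoc,
      ← mul_assoc (a ^ (k + 1)), ← pow_add]
    have : k + 1 + (k + 1) = k + (k + 1 + 1) := by ring
    rw [this, pow_add, mul_assoc (a ^ k), h, mul_zero, mul_zero]

end algebraic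

noncomputable def col (T : ι → H →L[ℂ] H) : H →L[ℂ] PiLp 2 (fun _ : ι => H) :=
  (PiLp.continuousLinearEquiv 2 ℂ (fun _ : ι => H)).symm.toContinuousLinearMap ∘L
    ContinuousLinearMap.pi T

omit [CompleteSpace H] [Fintype ι] in
@[simp] lemma col_apply (T : ι → H →L[ℂ] H) (x : H) (i : ι) : col T x i = T i x := rfl

noncomputable def diagFun (a : H →L[ℂ] H) :
    PiLp 2 (fun _ : ι => H) →L[ℂ] PiLp 2 (fun _ : ι => H) :=
  (PiLp.continuousLinearEquiv 2 ℂ (fun _ : ι => H)).symm.toContinuousLinearMap ∘L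
    ContinuousLinearMap.pi (fun i => a ∘L (ContinuousLinearMap.proj i : (ι → H) →L[ℂ] H)) ∘L
      (PiLp.continuousLinearEquiv 2 ℂ (fun _ : ι => H)).toContinuousLinearMap

omit [CompleteSpace H] [Fintype ι] in
@[simp] lemma diagFun_apply (a : H →L[ℂ] H) (y : PiLp 2 (fun _ : ι => H)) (i : ι) :
    diagFun a y i = a (y i) := rfl

variable (H ι) in
noncomputable def diag :
    (H →L[ℂ] H) →⋆ₐ[ℂ] (PiLp 2 (fun _ : ι => H) →L[ℂ] PiLp 2 (fun _ : ι => H)) where
  toFun := diagFun
  map_one' := by ext y i; simp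
  map_mul' a b := by ext y i; simp
  map_zero' := by ext y i; simp
  map_add' a b := by ext y i; simp
  commutes' c := by ext y i; simp [Algebra.algebraMap_eq_smul_one]
  map_star' a := by
    rw [star_eq_adjoint, star_eq_adjoint]
    rw [eq_adjoint_iff]
    intro x y
    simp only [PiLp.inner_apply, diagFun_apply, adjoint_inner_left]

@[simp] lemma diag_apply (a : H →L[ℂ] H) (y : PiLp 2 (fun _ : ι => H)) (i : ι) :
    diag H ι a y i = a (y i) := rfl

lemma adj_col_comp (T : ι → H →L[ℂ] H) (X : H →L[ℂ] H) :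
    adjoint (col T) ∘L (diag H ι X) ∘L col T = Θ T X := by
  ext x
  refine ext_inner_right ℂ fun y => ?_
  rw [comp_apply, comp_apply, adjoint_inner_left, PiLp.inner_apply, Θ, sum_apply, sum_inner]
  refine Finset.sum_congr rfl fun i _ => ?_
  rw [diag_apply, col_apply, col_apply, mul_apply_eq_comp, mul_apply_eq_comp, star_eq_adjoint, adjoint_inner_left]

lemma adjoint_col_apply (T : ι → H →L[ℂ] H) (y : PiLp 2 (fun _ : ι => H)) :
    adjoint (col T) y = ∑ i, star (T i) (y i) := by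
  refine ext_inner_right ℂ fun z => ?_
  rw [adjoint_inner_left, PiLp.inner_apply, sum_inner]
  refine Finset.sum_congr rfl fun i _ => ?_
  rw [col_apply, star_eq_adjoint, adjoint_inner_left]

lemma re_inner_le (T : ι → H →L[ℂ] H) (x : ι → H) :
    (∑ i, ∑ j, ⟪T i (x j), T j (x i)⟫_ℂ).re ≤ (∑ i, ⟪Θ T 1 (x i), x i⟫_ℂ).re := by
  have h1 : ∀ i j, (⟪T i (x j), T j (x i)⟫_ℂ).re ≤ (‖T i (x j)‖ ^ 2 + ‖T j (x i)‖ ^ 2) / 2 := by
    intro i j
    have := re_inner_le_norm (𝕜 := ℂ) (T i (x j)) (T j (x i))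
    have h2 := two_mul_le_add_sq (‖T i (x j)‖) (‖T j (x i)‖)
    have h3 : (⟪T i (x j), T j (x i)⟫_ℂ).re ≤ ‖T i (x j)‖ * ‖T j (x i)‖ := this
    nlinarith
  have h2 : ∀ i, (⟪Θ T 1 (x i), x i⟫_ℂ).re = ∑ j, ‖T j (x i)‖ ^ 2 := by
    intro i
    rw [Θ, sum_apply, sum_inner, Complex.re_sum]
    refine Finset.sum_congr rfl fun j _ => ?_
    rw [mul_one, mul_apply_eq_comp, star_eq_adjoint, adjoint_inner_left]
    exact inner_self_eq_norm_sq (𝕜 := ℂ) _
  rw [Complex.re_sum, Complex.re_sum]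
  simp_rw [Complex.re_sum, h2]
  calc ∑ i, ∑ j, (⟪T i (x j), T j (x i)⟫_ℂ).re
      ≤ ∑ i, ∑ j, (‖T i (x j)‖ ^ 2 + ‖T j (x i)‖ ^ 2) / 2 :=
        Finset.sum_le_sum fun i _ => Finset.sum_le_sum fun j _ => h1 i j
    _ = ∑ i, ∑ j, ‖T j (x i)‖ ^ 2 := by
        simp_rw [add_div, Finset.sum_add_distrib]
        rw [Finset.sum_comm]
        rw [← Finset.sum_add_distrib]
        refine Finset.sum_congr rfl fun i _ => ?_
        rw [← Finset.sum_add_distrib]
        refine Finset.sum_congr rfl fun j _ => ?_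
        ring

lemma col_le (T : ι → H →L[ℂ] H) (hT : JointlyHyponormal T) :
    col T ∘L adjoint (col T) ≤ diag H ι (Θ T 1) := by
  have hsa : IsSelfAdjoint (Θ T 1) := by
    unfold Θ
    simp_rw [mul_one]
    exact isSelfAdjoint_sum _ fun i _ => IsSelfAdjoint.star_mul_self _
  rw [le_def, isPositive_def']
  refine ⟨?_, fun y => ?_⟩
  · refine IsSelfAdjoint.sub ?_ ?_
    · exact hsa.map (diag H ι)
    · exact (isPositive_self_comp_adjoint (col T)).isSelfAdjoint
  · have h1 : (∑ i, ∑ j, ⟪(star (T j) * T i - T i * star (T j)) (y j), y i⟫_ℂ).re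
        = (∑ i, ∑ j, ⟪T i (y j), T j (y i)⟫_ℂ).re
          - (⟪(col T ∘L adjoint (col T)) y, y⟫_ℂ).re := by
      rw [← Complex.sub_re]
      congr 1
      rw [comp_apply, adjoint_col_apply, PiLp.inner_apply, ← Finset.sum_sub_distrib]
      refine Finset.sum_congr rfl fun i _ => ?_
      rw [col_apply, map_sum, sum_inner, ← Finset.sum_sub_distrib]
      refine Finset.sum_congr rfl fun j _ => ?_
      rw [sub_apply, inner_sub_left, mul_apply_eq_comp, mul_apply_eq_comp, star_eq_adjoint,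
        adjoint_inner_left]
    have h2 := hT y
    have h3 : 0 ≤ (∑ i, ∑ j, ⟪(star (T j) * T i - T i * star (T j)) (y j), y i⟫_ℂ).re :=
      (Complex.le_def.mp h2).1
    have h4 := re_inner_le T y
    rw [reApplyInnerSelf_apply, sub_apply, inner_sub_left]
    have h5 : ⟪diag H ι (Θ T 1) y, y⟫_ℂ = ∑ i, ⟪Θ T 1 (y i), y i⟫_ℂ := by
      rw [PiLp.inner_apply]
      rfl
    rw [h5, map_sub]
    simp only [RCLike.re_to_complex]
    linarith

/-- Intertwining of the continuous functional calculus. -/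
lemma intertwine (Y : H →L[ℂ] K) (a : H →L[ℂ] H) (b : K →L[ℂ] K) (ha : IsSelfAdjoint a)
    (hb : IsSelfAdjoint b) (h : Y ∘L a = b ∘L Y) (f : ℝ → ℝ) (hf : Continuous f) :
    Y ∘L cfc f a = cfc f b ∘L Y := by
  have hpoly : ∀ p : Polynomial ℝ, Y ∘L (Polynomial.aeval a p) = (Polynomial.aeval b p) ∘L Y := by
    intro p
    induction p using Polynomial.induction_on' with
    | add p q hp hq => simp only [map_add, comp_add, add_comp, hp, hq]
    | monomial n r =>
      have hpow : ∀ n : ℕ, Y ∘L (a ^ n) = (b ^ n) ∘L Y := by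
        intro n
        induction n with
        | zero => ext; simp
        | succ n ih =>
          rw [pow_succ, pow_succ', mul_def, mul_def, ← comp_assoc, ih, comp_assoc, h, ← comp_assoc,
            ← mul_def, ← mul_def, ← pow_succ, ← pow_succ']
      rw [Polynomial.aeval_monomial, Polynomial.aeval_monomial, Algebra.algebraMap_eq_smul_one,
        Algebra.algebraMap_eq_smul_one, smul_mul_assoc, one_mul, smul_mul_assoc, one_mul,
        comp_smul, smul_comp, hpow]
  have hnn : 0 ≤ ‖Y ∘L cfc f a - cfc f b ∘L Y‖ := norm_nonneg _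
  have hsmall : ∀ ε : ℝ, 0 < ε → ‖Y ∘L cfc f a - cfc f b ∘L Y‖ ≤ 2 * ‖Y‖ * ε := by
    intro ε hε
    set R : ℝ := max ‖a‖ ‖b‖ * ‖(1 : H →L[ℂ] H)‖ + max ‖a‖ ‖b‖ * ‖(1 : K →L[ℂ] K)‖ with hR
    obtain ⟨p, hp⟩ := exists_polynomial_near_of_continuousOn (-R) R f hf.continuousOn ε hε
    have ha1 : ∀ x ∈ spectrum ℝ a, x ∈ Set.Icc (-R) R := by
      intro x hx
      have h1 := spectrum.norm_le_norm_mul_of_mem hx
      have h2 : ‖a‖ * ‖(1 : H →L[ℂ] H)‖ ≤ R := by
        rw [hR]
        have := mul_le_mul_of_nonneg_right (le_max_left ‖a‖ ‖b‖) (norm_nonneg (1 : H →L[ℂ] H))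
        have h3 : 0 ≤ max ‖a‖ ‖b‖ * ‖(1 : K →L[ℂ] K)‖ :=
          mul_nonneg (le_max_of_le_left (norm_nonneg _)) (norm_nonneg _)
        linarith
      exact abs_le.mp (h1.trans h2)
    have hb1 : ∀ x ∈ spectrum ℝ b, x ∈ Set.Icc (-R) R := by
      intro x hx
      have h1 := spectrum.norm_le_norm_mul_of_mem hx
      have h2 : ‖b‖ * ‖(1 : K →L[ℂ] K)‖ ≤ R := by
        rw [hR]
        have := mul_le_mul_of_nonneg_right (le_max_right ‖a‖ ‖b‖) (norm_nonneg (1 : K →L[ℂ] K))
        have h3 : 0 ≤ max ‖a‖ ‖b‖ * ‖(1 : H →L[ℂ] H)‖ :=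
          mul_nonneg (le_max_of_le_left (norm_nonneg _)) (norm_nonneg _)
        linarith
      exact abs_le.mp (h1.trans h2)
    have ha2 : ‖cfc f a - Polynomial.aeval a p‖ ≤ ε := by
      rw [← cfc_polynomial p a, ← cfc_sub f (fun x => p.eval x) a]
      refine norm_cfc_le hε.le fun x hx => ?_
      rw [Real.norm_eq_abs, abs_sub_comm]
      exact (hp x (ha1 x hx)).le
    have hb2 : ‖cfc f b - Polynomial.aeval b p‖ ≤ ε := by
      rw [← cfc_polynomial p b, ← cfc_sub f (fun x => p.eval x) b]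
      refine norm_cfc_le hε.le fun x hx => ?_
      rw [Real.norm_eq_abs, abs_sub_comm]
      exact (hp x (hb1 x hx)).le
    have h3 : Y ∘L cfc f a - cfc f b ∘L Y = Y ∘L (cfc f a - Polynomial.aeval a p)
        - (cfc f b - Polynomial.aeval b p) ∘L Y := by
      rw [comp_sub, sub_comp, hpoly p]
      abel
    rw [h3]
    calc ‖Y ∘L (cfc f a - Polynomial.aeval a p) - (cfc f b - Polynomial.aeval b p) ∘L Y‖
        ≤ ‖Y ∘L (cfc f a - Polynomial.aeval a p)‖ + ‖(cfc f b - Polynomial.aeval b p) ∘L Y‖ :=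
          norm_sub_le _ _
      _ ≤ ‖Y‖ * ε + ε * ‖Y‖ := by
          refine add_le_add ((opNorm_comp_le _ _).trans ?_) ((opNorm_comp_le _ _).trans ?_)
          · exact mul_le_mul_of_nonneg_left ha2 (norm_nonneg _)
          · exact mul_le_mul_of_nonneg_right hb2 (norm_nonneg _)
      _ = 2 * ‖Y‖ * ε := by ring
  have hzero : ‖Y ∘L cfc f a - cfc f b ∘L Y‖ = 0 := by
    by_contra hne
    have hpos : 0 < ‖Y ∘L cfc f a - cfc f b ∘L Y‖ := lt_of_le_of_ne hnn (Ne.symm hne)
    have h4 := hsmall (‖Y ∘L cfc f a - cfc f b ∘L Y‖ / (2 * (2 * ‖Y‖ + 1))) (by positivity)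
    have h5 : 2 * ‖Y‖ * (‖Y ∘L cfc f a - cfc f b ∘L Y‖ / (2 * (2 * ‖Y‖ + 1)))
        ≤ ‖Y ∘L cfc f a - cfc f b ∘L Y‖ / 2 := by
      rw [mul_div_assoc', div_le_div_iff₀ (by positivity) (by norm_num)]
      have := norm_nonneg Y
      nlinarith [norm_nonneg Y, hpos]
    linarith
  exact sub_eq_zero.mp (norm_eq_zero.mp hzero)

lemma diag_nnrpow (c : H →L[ℂ] H) (hc : 0 ≤ c) (s : ℝ≥0) (hs : 0 < s) :
    (diag H ι c) ^ s = diag H ι (c ^ s) := by
  have hc' : 0 ≤ diag H ι c := map_nonneg (diag H ι) hc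
  rw [CFC.nnrpow_eq_rpow hs, CFC.nnrpow_eq_rpow hs, CFC.rpow_eq_cfc_real hc',
    CFC.rpow_eq_cfc_real hc]
  have hcont : Continuous (diag H ι) := by
    refine AddMonoidHomClass.continuous_of_bound (diag H ι) 1 ?_
    intro x
    rw [one_mul]
    exact NonUnitalStarAlgHom.norm_apply_le (diag H ι) x
  symm
  exact StarAlgHomClass.map_cfc (diag H ι) (fun x : ℝ => x ^ (s : ℝ)) c
    (Real.continuous_rpow_const s.2).continuousOn hcont (IsSelfAdjoint.of_nonneg hc)
    (IsSelfAdjoint.of_nonneg hc')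

lemma conj_mono (Y : H →L[ℂ] K) {a b : K →L[ℂ] K} (h : a ≤ b) :
    adjoint Y ∘L a ∘L Y ≤ adjoint Y ∘L b ∘L Y := by
  rw [le_def] at h ⊢
  have := h.adjoint_conj Y
  rwa [sub_comp, comp_sub] at this

lemma key (T : ι → H →L[ℂ] H) (a : H →L[ℂ] H) (ha : 0 ≤ a)
    (hTa : col T ∘L adjoint (col T) ≤ diag H ι a) (r s : ℝ≥0) (hr : 0 < r) (hs : 0 < s)
    (hs1 : s ≤ 1) : (Θ T (a ^ r)) ^ (1 + s) ≤ Θ T (a ^ (r + (r + 1) * s)) := by
  set b := a ^ (r / 2) with hb
  have hr2 : 0 < r / 2 := by positivity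
  have hb0 : 0 ≤ b := CFC.nnrpow_nonneg
  have hbb : b * b = a ^ r := by
    rw [hb, ← CFC.nnrpow_add hr2 hr2, add_halves]
  set Y := diag H ι b ∘L col T with hY
  have hYadj : adjoint Y = adjoint (col T) ∘L diag H ι b := by
    rw [hY, adjoint_comp, ← star_eq_adjoint, ← map_star, (IsSelfAdjoint.of_nonneg hb0).star_eq]
  have hYY : adjoint Y ∘L Y = Θ T (a ^ r) := by
    rw [hYadj, hY, ← hbb, ← adj_col_comp, map_mul, mul_def]
    simp only [comp_assoc]
  have hYY' : Y ∘L adjoint Y ≤ diag H ι (a ^ (r + 1)) := by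
    have h1 : Y ∘L adjoint Y = diag H ι b * (col T ∘L adjoint (col T)) * diag H ι b := by
      rw [hYadj, hY, mul_def, mul_def]
      simp only [comp_assoc]
    have h2 : diag H ι (a ^ (r + 1)) = diag H ι b * diag H ι a * diag H ι b := by
      rw [← map_mul, ← map_mul]
      congr 1
      have h3 : r + 1 = r / 2 + (1 + r / 2) := by
        have := add_halves r
        rw [← add_assoc, add_comm (r / 2) 1, add_assoc, this, add_comm]
      rw [h3, CFC.nnrpow_add hr2 (by positivity), CFC.nnrpow_add (by positivity) hr2,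
        CFC.nnrpow_one a ha, mul_assoc]
    rw [h1, h2]
    exact IsSelfAdjoint.conjugate_le_conjugate hTa ((IsSelfAdjoint.of_nonneg hb0).map (diag H ι))
  have hYY0 : 0 ≤ Y ∘L adjoint Y := (nonneg_iff_isPositive _).mpr (isPositive_self_comp_adjoint Y)
  have hYYa0 : 0 ≤ adjoint Y ∘L Y := (nonneg_iff_isPositive _).mpr (isPositive_adjoint_comp_self Y)
  have hYs : (Y ∘L adjoint Y) ^ s ≤ diag H ι (a ^ ((r + 1) * s)) := by
    calc (Y ∘L adjoint Y) ^ s ≤ (diag H ι (a ^ (r + 1))) ^ s :=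
          CFC.nnrpow_le_nnrpow ⟨zero_le, hs1⟩ hYY'
      _ = diag H ι ((a ^ (r + 1)) ^ s) := diag_nnrpow _ CFC.nnrpow_nonneg s hs
      _ = diag H ι (a ^ ((r + 1) * s)) := by rw [CFC.nnrpow_nnrpow]
  have hint : adjoint Y ∘L ((Y ∘L adjoint Y) ^ s) ∘L Y = (adjoint Y ∘L Y) ^ (1 + s) := by
    have h1 := intertwine Y (adjoint Y ∘L Y) (Y ∘L adjoint Y) (IsSelfAdjoint.of_nonneg hYYa0)
      (IsSelfAdjoint.of_nonneg hYY0) (by simp only [comp_assoc]) (fun x => x ^ (s : ℝ))
      (Real.continuous_rpow_const s.2)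
    rw [← CFC.rpow_eq_cfc_real hYYa0, ← CFC.rpow_eq_cfc_real hYY0, ← CFC.nnrpow_eq_rpow hs,
      ← CFC.nnrpow_eq_rpow hs] at h1
    rw [← h1, CFC.nnrpow_add (by positivity) hs, CFC.nnrpow_one _ hYYa0, mul_def]
    simp only [comp_assoc]
  have hfin := conj_mono Y hYs
  rw [hint, hYY] at hfin
  refine hfin.trans (le_of_eq ?_)
  have hexp : r + (r + 1) * s = r / 2 + ((r + 1) * s + r / 2) := by
    have := add_halves r
    rw [add_comm ((r + 1) * s), ← add_assoc, this]
  have hrs : 0 < (r + 1) * s := by positivity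
  rw [hexp, CFC.nnrpow_add hr2 (by positivity), CFC.nnrpow_add hrs hr2, ← adj_col_comp,
    map_mul, map_mul, hYadj, hY, mul_def, mul_def, ← hb]
  simp only [comp_assoc]

lemma Θ_mono (T : ι → H →L[ℂ] H) {X Y : H →L[ℂ] H} (h : X ≤ Y) : Θ T X ≤ Θ T Y :=
  Finset.sum_le_sum fun i _ => star_left_conjugate_le_conjugate h (T i)

lemma Θ_nonneg (T : ι → H →L[ℂ] H) {X : H →L[ℂ] H} (h : 0 ≤ X) : 0 ≤ Θ T X :=
  Finset.sum_nonneg fun i _ => star_left_conjugate_nonneg h (T i)

/-- `q m = Θ^m(1)` -/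
noncomputable def q (T : ι → H →L[ℂ] H) (m : ℕ) : H →L[ℂ] H := (Θ T)^[m] 1

lemma q_succ (T : ι → H →L[ℂ] H) (m : ℕ) : q T (m + 1) = Θ T (q T m) := by
  unfold q; rw [Function.iterate_succ_apply']

lemma q_nonneg (T : ι → H →L[ℂ] H) (m : ℕ) : 0 ≤ q T m := by
  induction m with
  | zero => exact zero_le_one
  | succ m ih => rw [q_succ]; exact Θ_nonneg T ih

lemma chain (T : ι → H →L[ℂ] H) (hT : col T ∘L adjoint (col T) ≤ diag H ι (Θ T 1)) (k : ℕ) :
    (q T (k + 1)) ^ (1 + 1 / ((k : ℝ≥0) + 1)) ≤ q T (k + 2) ∧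
      q T 1 ≤ (q T (k + 1)) ^ (1 / ((k : ℝ≥0) + 1)) := by
  induction k with
  | zero =>
    have h0 : q T 1 = Θ T 1 := rfl
    constructor
    · have h1 := conj_mono (col T) hT
      rw [adj_col_comp] at h1
      have h2 : (q T (0 + 1)) ^ (1 + 1 / (((0 : ℕ) : ℝ≥0) + 1)) = q T 1 * q T 1 := by
        have : (1 + 1 / (((0 : ℕ) : ℝ≥0) + 1)) = 1 + 1 := by simp
        rw [this, CFC.nnrpow_add (by positivity) (by positivity), CFC.nnrpow_one _ (q_nonneg T _)]
      have h3 : q T 1 * q T 1 = adjoint (col T) ∘L (col T ∘L adjoint (col T)) ∘L col T := by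
        rw [h0]
        conv_lhs => rw [← adj_col_comp, map_one, mul_def]
        ext x
        simp
      rw [h2, h3]
      exact h1
    · simp only [Nat.cast_zero, zero_add, div_one]
      rw [CFC.nnrpow_one _ (q_nonneg T _)]
  | succ k ih =>
    obtain ⟨ih1, ih2⟩ := ih
    have hk1 : ((k : ℝ≥0) + 1) ≠ 0 := by positivity
    have hk2 : ((k : ℝ≥0) + 1 + 1) ≠ 0 := by positivity
    have hcast : (((k + 1 : ℕ) : ℝ≥0) + 1) = (k : ℝ≥0) + 1 + 1 := by push_cast; ring
    have hB : q T 1 ≤ (q T (k + 1 + 1)) ^ (1 / (((k + 1 : ℕ) : ℝ≥0) + 1)) := by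
      refine ih2.trans ?_
      have h1 : (q T (k + 1)) ^ (1 / ((k : ℝ≥0) + 1))
          = ((q T (k + 1)) ^ (1 + 1 / ((k : ℝ≥0) + 1))) ^ (1 / ((k : ℝ≥0) + 1 + 1)) := by
        rw [CFC.nnrpow_nnrpow]
        congr 1
        field_simp
      rw [h1, hcast]
      refine CFC.nnrpow_le_nnrpow ⟨zero_le, ?_⟩ ih1
      rw [div_le_one (by positivity)]
      exact le_add_of_nonneg_left (by positivity)
    refine ⟨?_, hB⟩
    set a := (q T (k + 1)) ^ (1 / ((k : ℝ≥0) + 1)) with ha
    have ha0 : 0 ≤ a := CFC.nnrpow_nonneg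
    have hTa : col T ∘L adjoint (col T) ≤ diag H ι a := hT.trans (by
      have : diag H ι (Θ T 1) ≤ diag H ι a := by
        have h1 : 0 ≤ diag H ι (a - Θ T 1) := map_nonneg (diag H ι) (sub_nonneg.mpr ih2)
        rw [map_sub] at h1
        exact sub_nonneg.mp h1
      exact this)
    have hkey := key T a ha0 hTa ((k : ℝ≥0) + 1) (1 / ((k : ℝ≥0) + 1 + 1)) (by positivity)
      (by positivity) (by
        rw [div_le_one (by positivity)]
        exact le_add_of_nonneg_left (by positivity))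
    have hexp : (k : ℝ≥0) + 1 + ((k : ℝ≥0) + 1 + 1) * (1 / ((k : ℝ≥0) + 1 + 1))
        = (k : ℝ≥0) + 1 + 1 := by
      rw [mul_one_div, div_self hk2]
    rw [hexp] at hkey
    have hq : a ^ ((k : ℝ≥0) + 1) = q T (k + 1) := by
      rw [ha, CFC.nnrpow_nnrpow, one_div, inv_mul_cancel₀ hk1, CFC.nnrpow_one _ (q_nonneg T _)]
    have hq2 : a ^ ((k : ℝ≥0) + 1 + 1) ≤ q T (k + 2) := by
      refine le_trans (le_of_eq ?_) ih1
      rw [ha, CFC.nnrpow_nnrpow]
      congr 1
      field_simp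
    rw [hq, ← q_succ] at hkey
    rw [hcast]
    refine hkey.trans ?_
    rw [q_succ T (k + 1 + 1)]
    exact Θ_mono T hq2

lemma Θ_tuplePow {d : ℕ} (T : Fin d → H →L[ℂ] H) (n : ℕ) (X : H →L[ℂ] H) :
    Θ (tuplePow T n) X = (Θ T)^[n] X := by
  induction n generalizing X with
  | zero =>
    unfold Θ tuplePow
    simp
  | succ n ih =>
    rw [Function.iterate_succ_apply, ← ih]
    unfold Θ
    rw [← (Fin.consEquiv (fun _ : Fin (n + 1) => Fin d)).sum_comp, Fintype.sum_prod_type_right]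
    refine Finset.sum_congr rfl fun w _ => ?_
    rw [Finset.mul_sum, Finset.sum_mul]
    refine Finset.sum_congr rfl fun i _ => ?_
    have h : tuplePow T (n + 1) ((Fin.consEquiv (fun _ : Fin (n + 1) => Fin d)) (i, w))
        = T i * tuplePow T n w := by
      unfold tuplePow
      rw [List.ofFn_succ, List.prod_cons]
      simp [Fin.consEquiv]
    rw [h, star_mul]
    simp only [mul_assoc]

lemma q_mul {n : ℕ} {d : ℕ} (T : Fin d → H →L[ℂ] H) (h : SphericallyQuasinormal (tuplePow T n))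
    (k : ℕ) : q T (n * k) = q T n ^ k := by
  have hn : ∑ w, star (tuplePow T n w) * tuplePow T n w = q T n := by
    have := Θ_tuplePow T n 1
    unfold Θ at this
    simp_rw [mul_one] at this
    rw [this]
    rfl
  have hcomm : ∀ w, Commute (tuplePow T n w) (q T n) := by
    intro w; rw [← hn]; exact h w
  induction k with
  | zero => rfl
  | succ k ih =>
    have h1 : q T (n * (k + 1)) = (Θ T)^[n] (q T (n * k)) := by
      unfold q
      rw [← Function.iterate_add_apply]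
      congr 1
      rw [mul_add, mul_one, add_comm]
    rw [h1, ih, ← Θ_tuplePow, pow_succ']
    unfold Θ
    conv_rhs => rw [← hn]
    rw [Finset.sum_mul]
    refine Finset.sum_congr rfl fun w _ => ?_
    rw [mul_assoc, mul_assoc, hn, ((hcomm w).pow_right k).eq]

/-- the purely algebraic last step -/
lemma last_step (T : ι → H →L[ℂ] H) (a : H →L[ℂ] H) (ha : 0 ≤ a) (hle : Θ T 1 ≤ a)
    (hTT : ∀ i, T i * star (T i) ≤ a) (n : ℕ) (hpow : ∀ m, n ≤ m → Θ T (a ^ m) = a ^ (m + 1)) :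
    ∀ i, Commute (T i) (Θ T 1) := by
  have hsa : IsSelfAdjoint a := IsSelfAdjoint.of_nonneg ha
  have hstar : star a = a := hsa.star_eq
  -- the commutators
  have hsum : ∑ i, star (a ^ n * (a * T i - T i * a)) * (a ^ n * (a * T i - T i * a)) = 0 := by
    have h1 : ∀ i, star (a ^ n * (a * T i - T i * a)) * (a ^ n * (a * T i - T i * a))
        = star (T i) * a ^ (2 * n + 2) * T i - (star (T i) * a ^ (2 * n + 1) * T i) * a
          - a * (star (T i) * a ^ (2 * n + 1) * T i)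
          + a * (star (T i) * a ^ (2 * n) * T i) * a := by
      intro i
      have e1 : a ^ (2 * n + 2) = a * a ^ n * (a ^ n * a) := by
        rw [← pow_succ', ← pow_succ, ← pow_add]; congr 1; ring
      have e2 : a ^ (2 * n + 1) = a * a ^ n * a ^ n := by
        rw [← pow_succ', ← pow_add]; congr 1; ring
      have e2' : a ^ (2 * n + 1) = a ^ n * (a ^ n * a) := by
        rw [← pow_succ, ← pow_add]; congr 1; ring
      have e3 : a ^ (2 * n) = a ^ n * a ^ n := by
        rw [← pow_add]; congr 1; ring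
      rw [star_mul, star_sub, star_mul, star_mul, star_pow, hstar]
      have : a * (star (T i) * a ^ (2 * n + 1) * T i) = a * (star (T i) * (a ^ n * (a ^ n * a)) * T i) := by
        rw [e2']
      rw [this, e1, e2, e3]
      noncomm_ring
    simp_rw [h1]
    rw [Finset.sum_add_distrib, Finset.sum_sub_distrib, Finset.sum_sub_distrib, ← Finset.sum_mul,
      ← Finset.mul_sum, ← Finset.sum_mul, ← Finset.mul_sum]
    have h2 := hpow (2 * n + 2) (by omega)
    have h3 := hpow (2 * n + 1) (by omega)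
    have h4 := hpow (2 * n) (by omega)
    unfold Θ at h2 h3 h4
    rw [h2, h3, h4, ← pow_succ, ← pow_succ', ← pow_succ', ← pow_succ]
    abel
  have hC : ∀ i, a * (a * T i - T i * a) = 0 := by
    intro i
    have h1 := (Finset.sum_eq_zero_iff_of_nonneg (fun i _ => star_mul_self_nonneg
      (a ^ n * (a * T i - T i * a)))).mp hsum i (Finset.mem_univ i)
    rw [CStarRing.star_mul_self_eq_zero_iff] at h1
    refine cancel_pow hsa n ?_
    rw [pow_succ', mul_assoc, h1, mul_zero]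
  have hcomm : ∀ i, a * T i - T i * a = 0 := by
    intro i
    set C := a * T i - T i * a with hCdef
    have h1 : star (T i) * C = 0 := by
      rw [← CStarRing.star_mul_self_eq_zero_iff]
      apply le_antisymm
      · calc star (star (T i) * C) * (star (T i) * C) = star C * (T i * star (T i)) * C := by
              rw [star_mul, star_star]; noncomm_ring
          _ ≤ star C * a * C := star_left_conjugate_le_conjugate (hTT i) C
          _ = 0 := by rw [mul_assoc, hC i, mul_zero]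
      · exact star_mul_self_nonneg _
    rw [← CStarRing.star_mul_self_eq_zero_iff]
    have h2 : star C = star (T i) * a - a * star (T i) := by
      rw [hCdef, star_sub, star_mul, star_mul, hstar]
    rw [h2, sub_mul, mul_assoc, hC i, mul_zero, mul_assoc, h1, mul_zero, sub_zero]
  have hcomm' : ∀ i, Commute (T i) a := fun i => (sub_eq_zero.mp (hcomm i)).symm
  have hD : (a - Θ T 1) * a ^ n = 0 := by
    have h1 : Θ T (a ^ n) = Θ T 1 * a ^ n := by
      unfold Θ
      rw [Finset.sum_mul]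
      refine Finset.sum_congr rfl fun i _ => ?_
      rw [mul_one, mul_assoc, mul_assoc, ((hcomm' i).pow_right n).eq]
    rw [sub_mul, ← h1, hpow n le_rfl, pow_succ', sub_self]
  have hDsa : IsSelfAdjoint (a - Θ T 1) := IsSelfAdjoint.of_nonneg (sub_nonneg.mpr hle)
  have hD2 : a * (a - Θ T 1) = 0 := by
    have h1 : a ^ n * (a - Θ T 1) = 0 := by
      have := congrArg star hD
      rwa [star_mul, star_pow, hstar, hDsa.star_eq, star_zero] at this
    refine cancel_pow hsa n ?_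
    rw [pow_succ', mul_assoc, h1, mul_zero]
  have hD3 : (a - Θ T 1) * Θ T 1 * (a - Θ T 1) = 0 := by
    apply le_antisymm
    · calc (a - Θ T 1) * Θ T 1 * (a - Θ T 1) ≤ (a - Θ T 1) * a * (a - Θ T 1) :=
            IsSelfAdjoint.conjugate_le_conjugate hle hDsa
        _ = 0 := by rw [mul_assoc, hD2, mul_zero]
    · exact IsSelfAdjoint.conjugate_nonneg (Θ_nonneg T zero_le_one) hDsa
  have hD0 : a - Θ T 1 = 0 := by
    have h1 : (a - Θ T 1) ^ (2 + 1) * 1 = 0 := by
      have : (a - Θ T 1) ^ (2 + 1) * 1 = (a - Θ T 1) * (a * (a - Θ T 1))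
          - (a - Θ T 1) * Θ T 1 * (a - Θ T 1) := by
        rw [mul_one, pow_succ, pow_two]; noncomm_ring
      rw [this, hD2, hD3, mul_zero, sub_zero]
    have h2 := cancel_pow hDsa 2 h1
    rwa [mul_one] at h2
  intro i
  rw [← sub_eq_zero.mp hD0]
  exact hcomm' i

lemma T_star_le (T : ι → H →L[ℂ] H) (hT : JointlyHyponormal T) (i : ι) :
    T i * star (T i) ≤ Θ T 1 := by
  classical
  have h1 : T i * star (T i) ≤ star (T i) * T i := by
    rw [le_def, isPositive_def']
    refine ⟨(IsSelfAdjoint.star_mul_self _).sub (IsSelfAdjoint.mul_star_self _), fun y => ?_⟩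
    have h2 : 0 ≤ ∑ k, ∑ j, ⟪(star (T j) * T k - T k * star (T j)) ((Pi.single i y : ι → H) j),
        (Pi.single i y : ι → H) k⟫_ℂ := hT (Pi.single i y)
    have h3 : ∑ k, ∑ j, ⟪(star (T j) * T k - T k * star (T j)) ((Pi.single i y : ι → H) j),
        (Pi.single i y : ι → H) k⟫_ℂ = ⟪(star (T i) * T i - T i * star (T i)) y, y⟫_ℂ := by
      rw [Finset.sum_eq_single i, Finset.sum_eq_single i]
      · simp
      · intro j _ hj
        rw [Pi.single_eq_of_ne hj, map_zero, inner_zero_left]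
      · intro h; exact absurd (Finset.mem_univ _) h
      · intro k _ hk
        refine Finset.sum_eq_zero fun j _ => ?_
        rw [Pi.single_eq_of_ne hk, inner_zero_right]
      · intro h; exact absurd (Finset.mem_univ _) h
    rw [h3] at h2
    exact (Complex.le_def.mp h2).1
  refine h1.trans ?_
  unfold Θ
  simp_rw [mul_one]
  exact Finset.single_le_sum (f := fun i => star (T i) * T i)
    (fun j _ => star_mul_self_nonneg (T j)) (Finset.mem_univ i)

/-- Let `T` be a jointly hyponormal `d`-tuple of bounded operators on a complex Hilbert space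
(commuting or not). If, for some `n ≥ 1`, the power `T^n` is spherically quasinormal, then `T` is
spherically quasinormal. -/
theorem result {d : ℕ} (T : Fin d → H →L[ℂ] H) (hT : JointlyHyponormal T) (n : ℕ) (hn : 1 ≤ n)
    (h : SphericallyQuasinormal (tuplePow T n)) : SphericallyQuasinormal T := by
  have hcol := col_le T hT
  have hchain := chain T hcol
  set A : ℕ → H →L[ℂ] H := fun k => (q T (k + 1)) ^ (1 / ((k : ℝ≥0) + 1)) with hA
  have hmono : Monotone A := by
    refine monotone_nat_of_le_succ fun k => ?_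
    have h1 : A k = ((q T (k + 1)) ^ (1 + 1 / ((k : ℝ≥0) + 1))) ^ (1 / ((k : ℝ≥0) + 1 + 1)) := by
      rw [hA, CFC.nnrpow_nnrpow]
      have hk1 : ((k : ℝ≥0) + 1) ≠ 0 := by positivity
      have hk2 : ((k : ℝ≥0) + 1 + 1) ≠ 0 := by positivity
      field_simp
    have h2 : A (k + 1) = (q T (k + 2)) ^ (1 / ((k : ℝ≥0) + 1 + 1)) := by
      rw [hA]
      push_cast
      rfl
    rw [h1, h2]
    refine CFC.nnrpow_le_nnrpow ⟨zero_le, ?_⟩ (hchain k).1
    rw [div_le_one (by positivity)]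
    exact le_add_of_nonneg_left (by positivity)
  obtain ⟨n', rfl⟩ : ∃ n', n = n' + 1 := ⟨n - 1, by omega⟩
  set a := A n' with ha
  have ha0 : 0 ≤ a := CFC.nnrpow_nonneg
  have hmul : ∀ k, A ((n' + 1) * (k + 1) - 1) = a := by
    intro k
    have h1 : (n' + 1) * (k + 1) - 1 + 1 = (n' + 1) * (k + 1) :=
      Nat.sub_add_cancel (Nat.mul_pos (by omega) (by omega))
    rw [hA]
    simp only
    rw [h1, q_mul T h (k + 1)]
    have h2 : (((n' + 1) * (k + 1) - 1 : ℕ) : ℝ≥0) + 1 = ((n' : ℝ≥0) + 1) * ((k : ℝ≥0) + 1) := by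
      have : ((((n' + 1) * (k + 1) - 1 : ℕ) : ℝ≥0) + 1)
          = (((n' + 1) * (k + 1) - 1 + 1 : ℕ) : ℝ≥0) := by push_cast; ring
      rw [this, h1]; push_cast; ring
    rw [h2]
    have h3 : q T (n' + 1) ^ (k + 1) = (q T (n' + 1)) ^ ((k : ℝ≥0) + 1) := by
      have hpos : (0 : ℝ≥0) < (k : ℝ≥0) + 1 := by positivity
      rw [CFC.nnrpow_eq_rpow hpos]
      have : (((k : ℝ≥0) + 1 : ℝ≥0) : ℝ) = ((k + 1 : ℕ) : ℝ) := by push_cast; ring
      rw [this, CFC.rpow_natCast _ _ (q_nonneg T _)]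
    rw [h3, CFC.nnrpow_nnrpow, ha, hA]
    simp only
    congr 1
    have hk1 : ((k : ℝ≥0) + 1) ≠ 0 := by positivity
    have hk2 : ((n' : ℝ≥0) + 1) ≠ 0 := by positivity
    field_simp
  have hconst : ∀ m, n' ≤ m → A m = a := by
    intro m hm
    apply le_antisymm
    · rw [← hmul m]
      apply hmono
      have : m + 1 ≤ (n' + 1) * (m + 1) := Nat.le_mul_of_pos_left _ (by omega)
      omega
    · exact hmono hm
  have hqpow : ∀ m, n' ≤ m → q T (m + 1) = a ^ (m + 1) := by
    intro m hm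
    rw [← hconst m hm, hA]
    simp only
    have hpos : (0 : ℝ≥0) < (m : ℝ≥0) + 1 := by positivity
    have h1 : ((q T (m + 1)) ^ (1 / ((m : ℝ≥0) + 1))) ^ (m + 1)
        = ((q T (m + 1)) ^ (1 / ((m : ℝ≥0) + 1))) ^ ((m : ℝ≥0) + 1) := by
      rw [CFC.nnrpow_eq_rpow (x := (m : ℝ≥0) + 1) hpos]
      have : (((m : ℝ≥0) + 1 : ℝ≥0) : ℝ) = ((m + 1 : ℕ) : ℝ) := by push_cast; ring
      rw [this, CFC.rpow_natCast _ _ CFC.nnrpow_nonneg]
    rw [h1, CFC.nnrpow_nnrpow, one_div, inv_mul_cancel₀ hpos.ne', CFC.nnrpow_one _ (q_nonneg T _)]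
  have hle : Θ T 1 ≤ a := (hchain n').2
  have hfin := last_step T a ha0 hle (fun i => (T_star_le T hT i).trans hle) (n' + 1) (by
    intro m hm
    obtain ⟨m', rfl⟩ : ∃ m', m = m' + 1 := ⟨m - 1, by omega⟩
    rw [← hqpow m' (by omega), ← hqpow (m' + 1) (by omega), ← q_succ])
  intro i
  have h1 := hfin i
  unfold Θ at h1
  simp only [mul_one] at h1
  exact h1

end Pool.Agent.Results.MP_20dafb_an.HyponormalRoots
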